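import Pool.Agent.helper38.NS.SpecZero
import Pool.Agent.helper4.NS.SpecHead
import Pool.Agent.helper4.NS.SpecNode

/-!
# The program of the first node and the test, second family (state `T/ε`)
-/

namespace Pool.Agent.helper4.NS.Z0

open Complex
open Pool.Agent.helper31.IA (Z get)
open Pool.Agent.helper12.RS
open Pool.Agent.helper63.NF

/-- parts of the program of the first node -/
def q0a : List St :=
  [St.set 58 ((E.r 46).mul ((E.r 8).add (E.r 9))), St.set 59 (((E.r 0).mul (E.r 58)).add (E.r 13)),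
    St.pos (E.r 59), St.set 60 (E.r 59).inv,
    St.set 61 ((E.r 60).mul (((E.r 13).mul (E.r 58)).add (E.r 21)))]

def q0b (t : TD) : List St :=
  [St.set 62 (((E.r 70).sub (E.r 61)).mul (E.r 5)), St.set 63 ((E.r 58).add (E.r 18)),
    St.set 64 (((E.r 11).mul (E.r 59)).mul (E.r 63).inv), St.set 65 ((E.r 64).mul (E.r 62)),
    St.set 66 (((E.r 0).mul (E.r 65)).add (E.r 22)), St.set 67 (q2E t.L 0 (nth [] t.t 0)),
    St.lt
      (((E.sc two (E.r 65)).mul ((E.r 64).mul (E.r 66).inv)).mul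
        (((E.r 10).mul (E.r 10)).mul (E.r 67).inv))
      TH]

def q0c (t : TD) : List St :=
  [St.set 102 ((((E.r 28).add (E.r 37)).sub (E.r 88)).sub ((E.sc half (E.r 56)).mul (E.r 5))).exp,
    St.set 96 (q3E t.L (E.r 27) (nth [] t.M 0)), St.set 99 ((E.r 32).inv.mul (E.r 33)),
    St.set 100 ((E.sc (zi (nth 0 t.c 1)) (E.r 70)).add (E.r 22)), St.pos (E.r 100),
    St.set 103 (((E.sc two (aQ t 1)).mul ((E.r 70).add (E.r 18))).mul (E.r 100).inv),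
    St.rball 104 (E.c (zi 0)) ((((E.r 96).mul (E.r 102)).mul (E.r 86)).mul ((E.r 103).mul (E.r 99))),
    St.lt
      ((((E.r 3).mul ((E.r 22).sub (E.r 96))).add ((E.r 96).mul (((E.r 22).sub (E.r 102)).mul (E.r 99)))).add
        (E.r 104))
      TH]

theorem PS0_eq (t : TD) : PS0 t = headS t (bS t) ++ (hsQ t.L 0 t.H ++ (zroS t ++ (zlnS ++
    (ctS t 0 70 ++ (shQ ++ (q0a ++ (ieS ++ (q0b t ++ (nodS t 70 80 ++ q0c t))))))))) := by
  unfold PS0 headQ q0a q0b q0c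
  simp only [List.append_assoc]

/-- value of the parameter `b` -/
theorem bS_ev {t : TD} {σ : ℕ → ℂ} {ep s : ℝ} (h0 : σ 0 = (ep : ℂ)) (h1 : σ 1 = (s : ℂ)) :
    (bS t).ev σ = (t.bv ep s : ℂ) := by
  unfold bS TD.bv
  generalize t.bm = o
  rcases o with _ | ⟨m2, m1, m0, b1⟩
  · exact h1
  · show σ 1 * (((scE m2 (E.r 0)).ev σ + (zi m1).val) * σ 0 + (zi m0).val) + (zi b1).val = _
    rw [scE_ev]
    show σ 1 * ((cv m2 * σ 0 + (zi m1).val) * σ 0 + (zi m0).val) + (zi b1).val = _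
    rw [zi_val, zi_val, zi_val, h0, h1, cv_rv, cv_rv, cv_rv, cv_rv]
    push_cast
    rfl

theorem bS_congr {t : TD} {σ τ : ℕ → ℂ} (h0 : τ 0 = σ 0) (h1 : τ 1 = σ 1) :
    (bS t).ev τ = (bS t).ev σ := by
  unfold bS
  generalize t.bm = o
  rcases o with _ | ⟨m2, m1, m0, b1⟩
  · exact h1
  · show τ 1 * (((scE m2 (E.r 0)).ev τ + (zi m1).val) * τ 0 + (zi m0).val) + (zi b1).val =
      σ 1 * (((scE m2 (E.r 0)).ev σ + (zi m1).val) * σ 0 + (zi m0).val) + (zi b1).val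
    rw [scE_ev, scE_ev]
    show τ 1 * ((cv m2 * τ 0 + (zi m1).val) * τ 0 + (zi m0).val) + (zi b1).val =
      σ 1 * ((cv m2 * σ 0 + (zi m1).val) * σ 0 + (zi m0).val) + (zi b1).val
    rw [h0, h1]

theorem ep_e {e : ℝ} (he : 0 < e) : ((1 / e : ℝ) : ℂ) * (e : ℂ) = 1 := by
  have he0 : (e : ℂ) ≠ 0 := by exact_mod_cast he.ne'
  push_cast
  field_simp

/-- **The cut.** -/
theorem ct_spec {t : TD} {e κ : ℝ} (he : 0 < e) {σ : ℕ → ℂ} {Q : (ℕ → ℂ) → Prop} {T : ℂ}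
    (hF : HFS t e κ σ) {z : ℕ} (hz79 : z ≠ 79) (hz : σ z = T * e) (n : ℕ) (h : Sem (ctS t n z) σ Q) :
    ∃ τ, Q τ ∧ (∀ i, i ≠ 79 → τ i = σ i) ∧
      ‖T ^ 2 - (Real.sinh κ : ℂ) ^ 2‖ ≤ Real.sinh κ ^ 2 + t.Y n e := by
  have he0 : (e : ℂ) ≠ 0 := by exact_mod_cast he.ne'
  have e20 := hF.Ke2
  obtain ⟨y, hy⟩ : ∃ y, y = ((nth 0 t.y n : ℤ) : ℝ) / 2 ^ 40 := ⟨_, rfl⟩
  obtain ⟨B, hB⟩ : ∃ B, B = (Real.sinh κ * e) ^ 2 + y := ⟨_, rfl⟩
  obtain ⟨-, h⟩ := sem_set h (x := (B : ℂ)) (by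
    simp only [E.ev, zi_val]
    rw [e20, hB, hy, cv]
    push_cast
    ring)
  obtain ⟨-, p1, h⟩ := h
  have Bpos : 0 < B := by
    have p2 : 0 < ((B : ℝ) : ℂ).re := p1
    rwa [ofReal_re] at p2
  obtain ⟨-, p3, h⟩ := h
  refine ⟨_, h, fun i hi => upd_ne hi _, ?_⟩
  have h1 := lt_one p3
  have h2 : E.ev (upd σ 79 (B : ℂ)) ((((E.r z).mul (E.r z)).sub (E.r 20)).mul (E.r 79).inv) =
      (T ^ 2 - (Real.sinh κ : ℂ) ^ 2) * ((e ^ 2 * B⁻¹ : ℝ) : ℂ) := by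
    show (upd σ 79 (B : ℂ) z * upd σ 79 (B : ℂ) z - upd σ 79 (B : ℂ) 20) * (upd σ 79 (B : ℂ) 79)⁻¹ = _
    rw [upd_ne hz79, upd_ne (by omega), upd_same, hz, e20]
    push_cast
    ring
  rw [h2, norm_mul, Complex.norm_real, Real.norm_of_nonneg (by positivity)] at h1
  have h3 : ‖T ^ 2 - (Real.sinh κ : ℂ) ^ 2‖ * e ^ 2 < B := by
    have h4 := mul_lt_mul_of_pos_right h1 Bpos
    rw [one_mul] at h4
    have h5 : ‖T ^ 2 - (Real.sinh κ : ℂ) ^ 2‖ * (e ^ 2 * B⁻¹) * B =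
        ‖T ^ 2 - (Real.sinh κ : ℂ) ^ 2‖ * e ^ 2 := by
      field_simp
    rwa [h5] at h4
  unfold TD.Y
  rw [← hy]
  have he2 : 0 < e ^ 2 := by positivity
  have h6 : Real.sinh κ ^ 2 + y / e ^ 2 = B / e ^ 2 := by
    rw [hB]
    field_simp
  rw [h6, le_div_iff₀ he2]
  exact h3.le

/-- the root of `E0²/E1²` -/
theorem shQ_spec {t : TD} {e κ : ℝ} (he : 0 < e) {σ : ℕ → ℂ} {Q : (ℕ → ℂ) → Prop}
    {p l χ x a W Y s sq : ℂ} (hF : HFS t e κ σ) (hz : ZR t e κ p x l χ a W Y s sq σ)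
    (h : Sem shQ σ Q) : ∃ τ, Q τ ∧ (∀ i, i ≠ 53 → τ i = σ i) ∧ τ 53 = sq - 2 * (a * Y) ∧
      0 < (sq - 2 * (a * Y)).re ∧
      Pool.Agent.helper12.RS.SH e κ (tanh (κ * p)) l χ =
        (sq - 2 * (a * Y)) * (sq - 2 * (a * Y)) := by
  have e0 := hF.ep
  have g42 := hz.f42
  have g46 := hz.f46
  have g51 := hz.f51
  have hee := ep_e he
  obtain ⟨-, h⟩ := sem_set h (x := sq - 2 * (a * Y)) (by
    simp only [E.ev, two_val]
    rw [e0, g42, g46, g51]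
    linear_combination (-(2 * (a * Y))) * hee)
  obtain ⟨-, p1, h⟩ := h
  have hre : 0 < (sq - 2 * (a * Y)).re := p1
  refine ⟨_, h, fun i hi => upd_ne hi _, upd_same _ _, hre, ?_⟩
  rw [SH_form hz.hs hz.hY hz.ha hz.hsq]
  have h5 : sq * sq = 1 - 4 * (a * a * (s - Y * Y)) := by
    rw [hz.hsq, ← half_pow (slitPlane_ne_zero hz.hsl), ← Complex.exp_add]
    have : 1 / 2 * log (1 - 4 * (a * a * (s - Y * Y))) + 1 / 2 * log (1 - 4 * (a * a * (s - Y * Y))) =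
        log (1 - 4 * (a * a * (s - Y * Y))) := by ring
    rw [this, Complex.exp_log (slitPlane_ne_zero hz.hsl)]
  linear_combination -h5

/-- the first link -/
theorem zln_spec {t : TD} {e κ : ℝ} (he : 0 < e) {σ : ℕ → ℂ} {Q : (ℕ → ℂ) → Prop}
    {p x l χ a W Y s sq : ℂ} (hF : HFS t e κ σ) (hz : ZR t e κ p x l χ a W Y s sq σ)
    (h : Sem zlnS σ Q) : ∃ τ T1, Q τ ∧ (∀ i, i < 54 ∨ (58 ≤ i ∧ i ≠ 70) → τ i = σ i) ∧
      τ 70 = T1 * e ∧ τ 56 = log (S0 e κ (tanh (κ * p)) l χ) ∧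
      S0 e κ (tanh (κ * p)) l χ = ((Real.cosh κ : ℂ) + T1) ^ 2 ∧
      (Real.cosh κ : ℂ) + T1 = exp (1 / 2 * log (S0 e κ (tanh (κ * p)) l χ)) ∧
      0 < (S0 e κ (tanh (κ * p)) l χ).re := by
  have e0 := hF.ep
  have e19 := hF.Ze
  have e22 := hF.one
  have g42 := hz.f42
  have g43 := hz.f43
  have g44 := hz.f44
  have g46 := hz.f46
  have g48 := hz.f48
  have g49 := hz.f49
  have g51 := hz.f51
  have hee := ep_e he
  obtain ⟨ep, hep⟩ : ∃ z, z = ((1 / e : ℝ) : ℂ) := ⟨_, rfl⟩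
  rw [← hep] at e0 hee
  obtain ⟨S, hS⟩ : ∃ S, S = S0 e κ (tanh (κ * p)) l χ := ⟨_, rfl⟩
  have hS2 := S0_form (T := tanh (κ * p)) hz.hs hz.hY hz.ha hz.hW hz.hsq
  rw [← hS] at hS2 ⊢
  obtain ⟨-, h⟩ := sem_set h (x := e * (S - 1)) (by
    simp only [E.ev, two_val, four_val]
    rw [e0, g42, g43, g44, g46, g48, g49, g51, hS2]
    linear_combination (4 * W * (e * (a * a) * (s * W + 2 * (s - Y * Y)))) * hee)
  obtain ⟨-, h⟩ := sem_set h (x := S) (by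
    simp only [E.ev, upd, Nat.reduceEqDiff, reduceIte]
    rw [e0, e22]
    linear_combination (S - 1) * hee)
  obtain ⟨-, p1, h⟩ := h
  have Sre : 0 < S.re := p1
  have hsl : S ∈ slitPlane := Or.inl Sre
  obtain ⟨-, h⟩ := sem_set h (x := log S) (by simp [E.ev, upd])
  obtain ⟨q, hq⟩ : ∃ q, q = exp (1 / 2 * log S) := ⟨_, rfl⟩
  obtain ⟨-, h⟩ := sem_set h (x := q + 1) (by
    simp only [E.ev, upd, Nat.reduceEqDiff, reduceIte, half_val]
    rw [e22, hq])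
  obtain ⟨-, p2, h⟩ := h
  have qre : 0 < (q + 1).re := p2
  have qne := ne_of_re qre
  have hqq : q * q = S := by
    rw [hq, ← Complex.exp_add]
    have : 1 / 2 * log S + 1 / 2 * log S = log S := by ring
    rw [this, Complex.exp_log (slitPlane_ne_zero hsl)]
  have hHh : (Hh κ : ℂ) ^ 2 = 2 * ((Real.cosh κ : ℂ) - 1) := by
    have := Hh_sq κ
    exact_mod_cast this
  obtain ⟨-, h⟩ := sem_set h (x := (q - (Real.cosh κ : ℂ)) * e) (by
    simp only [E.ev, upd, Nat.reduceEqDiff, reduceIte, half_val]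
    rw [e19, hHh]
    have h1 : e * (S - 1) * (q + 1)⁻¹ = e * (q - 1) := by
      rw [← hqq]
      field_simp
      ring
    rw [h1]
    ring)
  refine ⟨_, q - (Real.cosh κ : ℂ), h, ?_, upd_same _ _, ?_, ?_, ?_, Sre⟩
  · intro i hi
    repeat rw [upd_ne (by omega)]
  · simp [upd]
  · rw [add_sub_cancel, ← hqq]
    ring
  · rw [add_sub_cancel, hq]

/-- what the program of the first node gives at one value of the unknown -/
structure ZP (t : TD) (e κ θ : ℝ) (p x T1 : ℂ) : Prop where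
  phd : 1 + Tb.iv e κ p / 2 ≠ 0
  dne : 1 + t.tb.c0 * Tb.u0 e κ p ≠ 0
  r : t.R0 e κ p ≠ 0
  E : 0 < (1 + exp (-(t.L0 e κ p))).re
  F : 0 < (1 + exp (-(t.L0 e κ p)) * (t.R0 e κ p * x)).re
  g : 1 - t.R0 e κ p * x ∈ slitPlane
  w0 : 1 - (Hh κ : ℂ) ^ 2 * exp (-(2 * ((LA e κ : ℂ) + lF (t.L0 e κ p) (t.R0 e κ p * x))) / e) *
        (1 - tanh (κ * p) ^ 2) ∈ slitPlane
  SH : Pool.Agent.helper12.RS.SH e κ (tanh (κ * p)) (t.L0 e κ p) (t.R0 e κ p * x) ∈ slitPlane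
  S : S0 e κ (tanh (κ * p)) (t.L0 e κ p) (t.R0 e κ p * x) = ((Real.cosh κ : ℂ) + T1) ^ 2
  re : 0 < ((Real.cosh κ : ℂ) + T1).re
  ne : T1 + (Real.sinh κ : ℂ) ≠ 0
  disp : ‖omT κ T1 - (kk κ : ℂ) * om0 κ p‖ ≤ dS t 0 e κ
  cut : ‖T1 ^ 2 - (Real.sinh κ : ℂ) ^ 2‖ ≤ Real.sinh κ ^ 2 + t.Y 0 e
  close : ∀ x' : ℂ, ‖x'‖ ≤ 1 →
    0 < (1 + exp (-(t.tb.lT e κ T1)) * (t.tb.rT e κ 0 T1 * x')).re →
      0 < (1 + exp (-(t.tb.lT e κ T1))).re ∧
      ‖x - t.M0 e κ p * (x - (1 - exp (CL (t.L0 e κ p) - (e : ℂ) * log ((Real.cosh κ : ℂ) + T1) +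
        lF (t.tb.lT e κ T1) (t.tb.rT e κ 0 T1 * x'))) / t.R0 e κ p)‖ < θ

/-- **The program of the first node.** -/
theorem zero_pt {t : TD} (hok : t.ok = true) {e κ : ℝ} (he : 0 < e) (hκ : 0 < κ)
    (ht0 : 0 < t.tR 0 e κ) {σ : ℕ → ℂ} {Q : (ℕ → ℂ) → Prop} {v x p : ℂ}
    (h0 : σ 0 = ((1 / e : ℝ) : ℂ)) (h1 : (bS t).ev σ = ((e * κ / 2 : ℝ) : ℂ)) (h2 : σ 2 = v)
    (h3 : σ 3 = x) (hv : Tb.iv e κ p = I * v) (h : Sem (PS0 t) σ Q) :
    ∃ T1, ZP t e κ θ0 p x T1 := by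
  have he0 : (e : ℂ) ≠ 0 := by exact_mod_cast he.ne'
  have hee := ep_e he
  rw [PS0_eq] at h
  have h := sem_append _ _ _ h
  obtain ⟨σ1, h, hF1, -, k2, k3⟩ := headS_spec he h0
    (by rw [bS_congr (upd_ne (by omega) _) (upd_ne (by omega) _), h1]) h
  have h := sem_append _ _ _ h
  obtain ⟨σ2, h, hH2, f2⟩ := sem_hsQ t.H 0 σ1 hF1.mi h
  have lt2 : ∀ i, i < 128 → σ2 i = σ1 i := fun i hi => f2 i fun a _ => by
      have := hreg_ge a
      omega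
  have hF2 : HFS t e κ σ2 := hF1.of_eq (fun i hi _ _ _ _ => lt2 i (by omega))
    (fun i j => f2 _ fun a _ => mreg_ne i j a)
  have h := sem_append _ _ _ h
  obtain ⟨σ3, h, f3, l, χ, a, W, Y, s, sq, hl, hz⟩ := zroS_spec he hF2
    (by rw [lt2 2 (by omega), k2, h2]) (by rw [lt2 3 (by omega), k3, h3]) hv h
  have x3 : σ3 3 = x := by rw [f3 3 (by omega), lt2 3 (by omega), k3, h3]
  have hF3 : HFS t e κ σ3 := hF2.of_eq (fun i hi _ _ _ _ => f3 i (by omega)) (fun i j => f3 _ (by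
    have := mreg_ge i j
    omega))
  have hH3 : (hlQ t.L 0 t.H).map (E.ev σ3) = hV (t.tb.de e) (t.tb.db e κ) 0 t.H := by
    rw [← hH2]
    apply hlQ_congr
    intro k
    have := hreg_ge k
    exact f3 _ (by omega)
  have h := sem_append _ _ _ h
  obtain ⟨σ4, T1, h, f4, hT4, hS4, hSQ, hSE, hSre⟩ := zln_spec he hF3 hz h
  have hF4 : HFS t e κ σ4 := hF3.of_eq (fun i hi _ _ _ _ => f4 i (by omega)) (fun i j => f4 _ (by
    have := mreg_ge i j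
    omega))
  have h := sem_append _ _ _ h
  obtain ⟨σ5, h, f5, hC⟩ := ct_spec he hF4 (z := 70) (by omega) hT4 0 h
  have hF5 : HFS t e κ σ5 := hF4.of_eq (fun i hi _ _ _ _ => f5 i (by omega)) (fun i j => f5 _ (by
    have := mreg_ge i j
    omega))
  have hz5 : ZR t e κ p x l χ a W Y s sq σ5 := hz.of_eq fun i _ _ => by
    rw [f5 i (by omega), f4 i (by omega)]
  have h := sem_append _ _ _ h
  obtain ⟨σ6, h, f6, -, hre, hSH⟩ := shQ_spec he hF5 hz5 h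
  have hSHs : Pool.Agent.helper12.RS.SH e κ (tanh (κ * p)) l χ ∈ slitPlane := by
    rw [hSH]
    exact sq_slit hre
  have hF6 : HFS t e κ σ6 := hF5.of_eq (fun i hi _ _ _ _ => f6 i (by omega)) (fun i j => f6 _ (by
    have := mreg_ge i j
    omega))
  have hz6 : ZR t e κ p x l χ a W Y s sq σ6 := hz5.of_eq fun i _ _ => f6 i (by omega)
  have T6 : σ6 70 = T1 * e := by rw [f6 70 (by omega), f5 70 (by omega), hT4]
  have S6 : σ6 56 = log (S0 e κ (tanh (κ * p)) l χ) := by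
    rw [f6 56 (by omega), f5 56 (by omega), hS4]
  have h := sem_append _ _ _ h
  have e0 := hF6.ep
  have e8 := hF6.E
  have e9 := hF6.Ei
  have e10 := hF6.q
  have e11 := hF6.qi
  have e13 := hF6.c
  have e18 := hF6.Ke
  have e21 := hF6.eK
  have e22 := hF6.one
  have g46 := hz6.f46
  obtain ⟨ep, hep⟩ : ∃ z, z = ((1 / e : ℝ) : ℂ) := ⟨_, rfl⟩
  rw [← hep] at e0 hee
  obtain ⟨c, hc⟩ : ∃ c, c = (Real.cosh κ : ℂ) := ⟨_, rfl⟩
  obtain ⟨K, hK⟩ : ∃ K, K = (Real.sinh κ : ℂ) := ⟨_, rfl⟩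
  obtain ⟨T0, hT0⟩ : ∃ z, z = K * tanh (κ * p) := ⟨_, rfl⟩
  rw [← hc] at e13
  rw [← hK] at e18 e21
  have hcK : c * c - K * K = 1 := by
    rw [hc, hK]
    have := Real.cosh_sq κ
    have h2 := congrArg (fun x : ℝ => (x : ℂ)) this
    push_cast at h2 ⊢
    linear_combination h2
  obtain ⟨-, h⟩ := sem_set h (x := e * T0) (by
    simp only [E.ev]
    rw [g46, e8, e9, hT0, hK]
    have h7 := hz6.hY
    have h8 : (Real.sinh κ : ℂ) = (Hh κ : ℂ) * (Real.cosh (κ / 2) : ℂ) := by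
      have : Real.sinh κ = Hh κ * Real.cosh (κ / 2) := by
        unfold Hh
        rw [← Real.sinh_two_mul]
        congr 1
        ring
      rw [this]
      push_cast
      rfl
    have h9 : (Real.exp (κ / 2) : ℂ) + (Real.exp (-(κ / 2)) : ℂ) = 2 * (Real.cosh (κ / 2) : ℂ) := by
      rw [Real.cosh_eq]
      push_cast
      ring
    rw [h8, h9]
    linear_combination -(e * (Real.cosh (κ / 2) : ℂ)) * h7)
  obtain ⟨-, h⟩ := sem_set h (x := c + T0) (by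
    simp only [E.ev, upd, Nat.reduceEqDiff, reduceIte]
    rw [e0, e13]
    linear_combination T0 * hee)
  obtain ⟨-, p1, h⟩ := h
  have Q0re : 0 < (c + T0).re := p1
  have Q0ne : c + T0 ≠ 0 := ne_of_re Q0re
  obtain ⟨-, h⟩ := sem_set h (x := (c + T0)⁻¹) (by simp [E.ev, upd])
  obtain ⟨-, h⟩ := sem_set h (x := e * (c - (c + T0)⁻¹)) (by
    simp only [E.ev, upd, Nat.reduceEqDiff, reduceIte]
    rw [e13, e21]
    have h8 : (c + T0)⁻¹ * (c + T0) = 1 := inv_mul_cancel₀ Q0ne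
    linear_combination (e * c) * h8 - (e * (c + T0)⁻¹) * hcK)
  have h := sem_append _ _ _ h
  obtain ⟨-, -, h⟩ := h
  obtain ⟨-, h⟩ := sem_set h (x := (e : ℂ)) (by
    simp only [E.ev, upd, Nat.reduceEqDiff, reduceIte]
    rw [e0]
    exact inv_eq_of_mul_eq_one_right hee)
  have h := sem_append _ _ _ h
  obtain ⟨dT, hdT⟩ : ∃ z, z = T1 - (c - (c + T0)⁻¹) := ⟨_, rfl⟩
  obtain ⟨-, h⟩ := sem_set h (x := e * (e * dT)) (by
    simp only [E.ev, upd, Nat.reduceEqDiff, reduceIte]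
    rw [T6, hdT]
    ring)
  obtain ⟨-, h⟩ := sem_set h (x := e * (T0 + K)) (by
    simp only [E.ev, upd, Nat.reduceEqDiff, reduceIte]
    rw [e18]
    ring)
  obtain ⟨pp, hpp⟩ : ∃ z, z = (T0 + K)⁻¹ * ((Real.exp (-κ) : ℂ) * (c + T0)) := ⟨_, rfl⟩
  obtain ⟨o2, h⟩ := sem_set h (x := pp * ep) (by
    simp only [E.ev, upd, Nat.reduceEqDiff, reduceIte]
    rw [e11, hpp, mul_inv, eq_inv_of_mul_eq_one_left hee]
    ring)
  have TK0 : T0 + K ≠ 0 := by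
    have o3 := o2.2.2
    simp only [E.ev, upd, Nat.reduceEqDiff, reduceIte] at o3
    exact (mul_ne_zero_iff.1 o3).2
  obtain ⟨-, h⟩ := sem_set h (x := e * (pp * dT)) (by
    simp only [E.ev, upd, Nat.reduceEqDiff, reduceIte]
    linear_combination (e * pp * dT) * hee)
  obtain ⟨-, h⟩ := sem_set h (x := pp * dT + 1) (by
    simp only [E.ev, upd, Nat.reduceEqDiff, reduceIte]
    rw [e0, e22]
    linear_combination (pp * dT) * hee)
  obtain ⟨tr, htr⟩ : ∃ tr, tr = t.tR 0 e κ := ⟨_, rfl⟩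
  obtain ⟨σ7, hσ7⟩ : ∃ τ, τ = upd (upd (upd (upd (upd (upd (upd (upd (upd (upd σ6 58 (e * T0))
    59 (c + T0)) 60 (c + T0)⁻¹) 61 (e * (c - (c + T0)⁻¹))) 5 (e : ℂ)) 62 (e * (e * dT)))
    63 (e * (T0 + K))) 64 (pp * ep)) 65 (e * (pp * dT))) 66 (pp * dT + 1) := ⟨_, rfl⟩
  rw [← hσ7] at h
  have f7 : ∀ i, i < 5 ∨ (6 ≤ i ∧ i < 58) ∨ 67 ≤ i → σ7 i = σ6 i := by
    intro i hi
    rw [hσ7]
    repeat rw [upd_ne (by omega)]
  obtain ⟨-, h⟩ := sem_set h (x := (tr : ℂ)) (by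
    have hM : MI t.L (t.tb.de e) (t.tb.db e κ) σ7 := by
      rw [hσ7]
      exact MI_upd (MI_upd (MI_upd (MI_upd (MI_upd (MI_upd (MI_upd (MI_upd (MI_upd (MI_upd hF6.mi
        (by omega) _) (by omega) _) (by omega) _) (by omega) _) (by omega) _) (by omega) _)
        (by omega) _) (by omega) _) (by omega) _) (by omega) _
    have h7 := q2E_ev hM 0 (nth [] t.t 0)
    rw [cv_zero, zero_add] at h7
    rw [h7, htr]
    exact t.tR_eq 0 e κ)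
  obtain ⟨o4, h4, h⟩ := h
  have v5 : σ7 5 = e := by rw [hσ7]; simp [upd]
  have v64 : σ7 64 = pp * ep := by rw [hσ7]; simp [upd]
  have v65 : σ7 65 = e * (pp * dT) := by rw [hσ7]; simp [upd]
  have v66 : σ7 66 = pp * dT + 1 := by rw [hσ7]; simp [upd]
  have v10 : σ7 10 = (Real.exp κ : ℂ) := by rw [f7 10 (by omega), e10]
  have sne : pp * dT + 1 ≠ 0 := by
    have o5 : upd σ7 67 (tr : ℂ) 66 ≠ 0 := o4.1.2.2.2
    rwa [upd_ne (by omega), v66] at o5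
  have hsinh : 0 < Real.sinh κ := Real.sinh_pos_iff.2 hκ
  have hD : ‖omT κ T1 - (kk κ : ℂ) * omT κ T0‖ ≤ Real.sinh κ * (tr * kk κ ^ (0 + 1)) := by
    have h6 := lt_one h4
    have h7 : E.ev (upd σ7 67 (tr : ℂ)) (((E.sc two (E.r 65)).mul ((E.r 64).mul (E.r 66).inv)).mul
        (((E.r 10).mul (E.r 10)).mul (E.r 67).inv)) =
      2 * 1 * (pp * dT) * (Real.exp (((0 + 1 : ℕ) : ℝ) * κ) : ℂ) *
        ((pp * (pp * dT + 1)⁻¹) * ((Real.exp (((0 + 1 : ℕ) : ℝ) * κ) : ℂ) * (tr : ℂ)⁻¹)) := by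
      simp only [E.ev, two_val, upd, Nat.reduceEqDiff, reduceIte]
      rw [v64, v65, v66, v10]
      have h8 : ((0 + 1 : ℕ) : ℝ) * κ = κ := by norm_num
      rw [h8]
      linear_combination (2 * (pp * dT) * (Real.exp κ : ℂ) * pp * (pp * dT + 1)⁻¹ *
        (Real.exp κ : ℂ) * (tr : ℂ)⁻¹) * hee
    rw [h7] at h6
    have hQne : (Real.cosh κ : ℂ) + T0 ≠ 0 := by rw [← hc]; exact Q0ne
    have hTKne : T0 + (Real.sinh κ : ℂ) ≠ 0 := by rw [← hK]; exact TK0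
    have hd := omT_diff hQne (u := ((Real.cosh κ : ℂ) + T0)⁻¹) rfl hTKne (p := pp) (dT := dT)
      (by rw [hpp, hK, hc]) sne
    have hT1 : (Real.cosh κ : ℂ) - ((Real.cosh κ : ℂ) + T0)⁻¹ + dT = T1 := by
      rw [hdT, hc]
      ring
    rw [hT1] at hd
    exact disp_of (κ := κ) (t := tr) (n := 0 + 1) (Kk := 1) (pd := pp * dT)
      (ps := pp * (pp * dT + 1)⁻¹) (Kc := (Real.sinh κ : ℂ)) (dK := Real.sinh κ)
      (by rw [htr]; exact ht0) hsinh.le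
      (by rw [norm_one, mul_one, Complex.norm_real, Real.norm_of_nonneg hsinh.le]) hd h6
  have TK1 : T1 + K ≠ 0 := by
    have hTKne : T0 + (Real.sinh κ : ℂ) ≠ 0 := by rw [← hK]; exact TK0
    have hQne : (Real.cosh κ : ℂ) + T0 ≠ 0 := by rw [← hc]; exact Q0ne
    have hp1 := p_TsK hQne (u := ((Real.cosh κ : ℂ) + T0)⁻¹) rfl hTKne (p := pp)
      (by rw [hpp, hK, hc])
    rw [← hc, ← hK] at hp1
    intro h0
    apply sne
    rw [hdT]
    linear_combination -hp1 + pp * h0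
  have f8 : ∀ i, i < 5 ∨ (6 ≤ i ∧ i < 58) ∨ 68 ≤ i → upd σ7 67 (tr : ℂ) i = σ6 i := by
    intro i hi
    rw [upd_ne (by omega), f7 i (by omega)]
  have h := sem_append _ _ _ h
  have hF8 : HFS t e κ (upd σ7 67 (tr : ℂ)) := hF6.of_eq (fun i hi _ _ _ h5 => f8 i (by omega))
    (fun i j => f8 _ (by
      have := mreg_ge i j
      omega))
  have hH8 : HHS t e κ (upd σ7 67 (tr : ℂ)) := by
    unfold HHS
    rw [← hH3]
    apply hlQ_congr
    intro k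
    have := hreg_ge k
    rw [f8 _ (by omega), f6 _ (by omega), f5 _ (by omega), f4 _ (by omega)]
  obtain ⟨σ9, h, f9, hN⟩ := nodS_spec hok he (Or.inr rfl) (by omega) hF8 hH8 (z := 70) (T := T1)
    (by rw [f8 70 (by omega), T6]) h
  have hF9 : HFS t e κ σ9 := hF8.of_eq (fun i hi _ _ _ _ => f9 i (by omega)) (fun i j => f9 _ (by
    have := mreg_ge i j
    omega))
  have hz9 : ZR t e κ p x l χ a W Y s sq σ9 := hz6.of_eq fun i _ _ => by
    rw [f9 i (by omega), f8 i (by omega)]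
  have T9 : σ9 70 = T1 * e := by rw [f9 70 (by omega), f8 70 (by omega), T6]
  have S9 : σ9 56 = log (S0 e κ (tanh (κ * p)) l χ) := by
    rw [f9 56 (by omega), f8 56 (by omega), S6]
  have x9 : σ9 3 = x := by
    rw [f9 3 (by omega), f8 3 (by omega), f6 3 (by omega), f5 3 (by omega), f4 3 (by omega), x3]
  have n5 : σ9 5 = e := by
    rw [f9 5 (by omega), upd_ne (by omega), v5]
  have n7 := hF9.k
  have n18 := hF9.Ke
  have n22 := hF9.one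
  have n88 : σ9 88 = lc (t.tb.lT e κ T1) := hN.m
  have n86 : σ9 86 = exp (-(t.tb.lT e κ T1)) := hN.M
  have n28 := hz9.f28
  have n37 := hz9.f37
  have n32 := hz9.f32
  have n33 := hz9.f33
  have n27 := hz9.f27
  rw [← hK] at n18
  obtain ⟨l', hl'⟩ : ∃ l', l' = t.tb.lT e κ T1 := ⟨_, rfl⟩
  obtain ⟨S, hSd⟩ : ∃ S, S = S0 e κ (tanh (κ * p)) l χ := ⟨_, rfl⟩
  rw [← hl'] at n88 n86
  rw [← hSd] at S9 hSQ hSE hSre
  obtain ⟨Lq, hLq⟩ : ∃ L, L = (e : ℂ) * log ((Real.cosh κ : ℂ) + T1) := ⟨_, rfl⟩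
  have hLq2 : Lq = 1 / 2 * log S * e := by
    rw [hLq, hSE]
    have h9 : (1 / 2 * log S).im = arg S / 2 := by
      have : (1 / 2 : ℂ) * log S = ((1 / 2 : ℝ) : ℂ) * log S := by push_cast; ring
      rw [this, Complex.im_ofReal_mul, Complex.log_im]
      ring
    have h10 := Complex.neg_pi_lt_arg S
    have h11 := Complex.arg_le_pi S
    have hpi := Real.pi_pos
    rw [Complex.log_exp (by rw [h9]; linarith) (by rw [h9]; linarith)]
    ring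
  obtain ⟨E0, hE0⟩ : ∃ E, E = exp (l + lc l - lc l' - Lq) := ⟨_, rfl⟩
  obtain ⟨-, h⟩ := sem_set h (x := E0) (by
    simp only [E.ev, half_val]
    rw [n28, n37, n88, S9, n5, hE0, hLq2])
  obtain ⟨M, hM⟩ : ∃ M, M = t.M0 e κ p := ⟨_, rfl⟩
  obtain ⟨-, h⟩ := sem_set h (x := M) (by
    have hMI : MI t.L (t.tb.de e) (t.tb.db e κ) (upd σ9 102 E0) := MI_upd hF9.mi (by omega) _
    rw [q3E_ev hMI]
    show P3 (c3 (nth [] t.M 0)) (upd σ9 102 E0 27) _ _ = _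
    rw [upd_ne (by omega), n27, hM]
    rfl)
  obtain ⟨A, hA⟩ : ∃ z, z = t.tb.an0 e κ * Tb.u0 e κ p := ⟨_, rfl⟩
  obtain ⟨d, hd⟩ : ∃ z, z = 1 + t.tb.c0 * Tb.u0 e κ p := ⟨_, rfl⟩
  rw [← hA] at n32
  rw [← hd] at n33
  obtain ⟨r, hr⟩ : ∃ z, z = t.R0 e κ p := ⟨_, rfl⟩
  have hrv : r = A / d := by rw [hr, hA, hd]; rfl
  have dne : d ≠ 0 := by rw [hd]; exact hz9.dne
  obtain ⟨o6, h⟩ := sem_set h (x := r⁻¹) (by
    simp only [E.ev, upd, Nat.reduceEqDiff, reduceIte]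
    rw [n32, n33, hrv, inv_div, div_eq_mul_inv, mul_comm])
  have Ane : A ≠ 0 := by
    have o7 := o6.1.2
    simp only [E.ev, upd, Nat.reduceEqDiff, reduceIte] at o7
    rwa [n32] at o7
  have rne : r ≠ 0 := by
    rw [hrv]
    exact div_ne_zero Ane dne
  obtain ⟨D1, hD1⟩ : ∃ z, z = t.tb.c 0 * (e * T1) + 1 := ⟨_, rfl⟩
  obtain ⟨-, h⟩ := sem_set h (x := D1) (by
    simp only [E.ev, upd, Nat.reduceEqDiff, reduceIte, zi_val]
    rw [T9, n22, hD1, mul_comm (e : ℂ) T1]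
    rfl)
  obtain ⟨-, p2, h⟩ := h
  have D1re : 0 < D1.re := p2
  have D1ne := ne_of_re D1re
  obtain ⟨r', hr'⟩ : ∃ z, z = t.tb.rT e κ 0 T1 := ⟨_, rfl⟩
  obtain ⟨-, h⟩ := sem_set h (x := r') (by
    have hMI : MI t.L (t.tb.de e) (t.tb.db e κ)
        (upd (upd (upd (upd σ9 102 E0) 96 M) 99 r⁻¹) 100 D1) :=
      MI_upd (MI_upd (MI_upd (MI_upd hF9.mi (by omega) _) (by omega) _) (by omega) _) (by omega) _
    have hav := aQ_ev hMI (m := 1) (by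
      rw [upd_ne (by omega), upd_ne (by omega), upd_ne (by omega), upd_ne (by omega), n7])
    show two.val * (aQ t 1).ev _ * (upd (upd (upd (upd σ9 102 E0) 96 M) 99 r⁻¹) 100 D1 70 +
      upd (upd (upd (upd σ9 102 E0) 96 M) 99 r⁻¹) 100 D1 18) *
      (upd (upd (upd (upd σ9 102 E0) 96 M) 99 r⁻¹) 100 D1 100)⁻¹ = _
    rw [hav, two_val]
    simp only [upd, Nat.reduceEqDiff, reduceIte]
    rw [T9, n18, hr']
    unfold Tb.rT
    have g1 : t.tb.an e κ 0 = P2 (c2 (nth [] t.a 1)) (t.tb.de e) (t.tb.db e κ) *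
      exp (-(cv (nth 0 t.j 1) * κ)) := rfl
    rw [← g1, ← hep, ← hK]
    have g2 : D1 = e * (ep + t.tb.c 0 * T1) := by
      rw [hD1]
      linear_combination -hee
    have g3 : ep + t.tb.c 0 * T1 ≠ 0 := by
      intro h0
      rw [h0, mul_zero] at g2
      exact D1ne g2
    rw [g2]
    field_simp)
  obtain ⟨-, -, h⟩ := h
  refine ⟨T1, ⟨hz9.phd, hz9.dne, by rw [← hr]; exact rne, by rw [← hl]; exact hz9.E, ?_, ?_, ?_, ?_,
    ?_, hN.Qre, by rw [← hK]; exact TK1, ?_, hC, ?_⟩⟩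
  · rw [← hl, ← hz9.hχ]; exact hz9.F
  · rw [← hz9.hχ]; exact Or.inl hz9.g
  · rw [← hl, ← hz9.hχ]
    have hHT : (Hh κ : ℂ) ^ 2 * tanh (κ * p) ^ 2 = 4 * (Y * Y) := by
      calc (Hh κ : ℂ) ^ 2 * tanh (κ * p) ^ 2 = ((Hh κ : ℂ) * tanh (κ * p)) ^ 2 := by ring
        _ = _ := by rw [hz9.hY]; ring
    have e1 : exp (-(2 * ((LA e κ : ℂ) + lF l χ)) / e) = a * a := by
      rw [hz9.ha, ← Complex.exp_add]
      congr 1
      ring
    have e5 : (1 : ℂ) - (Hh κ : ℂ) ^ 2 * (a * a) * (1 - tanh (κ * p) ^ 2) =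
        1 - 4 * (a * a * (s - Y * Y)) := by
      rw [hz9.hs]
      linear_combination (a * a) * hHT
    rw [e1, e5]
    exact hz9.hsl
  · rw [← hl, ← hz9.hχ]; exact hSHs
  · rw [← hl, ← hz9.hχ, ← hSd]; exact hSQ
  · rw [om0_eq hκ, ← hK, ← hT0]
    unfold dS
    rw [← htr]
    exact hD
  · intro x' hx' hF'
    refine ⟨hN.M1, ?_⟩
    have h := h (-(M * E0 * exp (-l') * (r' * r⁻¹) * x')) (by
      simp only [E.ev, upd, Nat.reduceEqDiff, reduceIte]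
      rw [zz_val, sub_zero, norm_neg, n86, norm_mul]
      calc ‖M * E0 * exp (-l') * (r' * r⁻¹)‖ * ‖x'‖ ≤ ‖M * E0 * exp (-l') * (r' * r⁻¹)‖ * 1 :=
            mul_le_mul_of_nonneg_left hx' (norm_nonneg _)
        _ = _ := mul_one _)
    obtain ⟨-, p3, -⟩ := h
    simp only [E.ev, upd, Nat.reduceEqDiff, reduceIte] at p3
    rw [x9, n22] at p3
    rw [← hl', ← hr'] at hF' ⊢
    have hne2 := ne_of_re hF'
    rw [← hl, ← hr, ← hM, ← hLq, exp_close hne2, ← hE0]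
    have e2 : x - M * (x - (1 - E0 * (1 + exp (-l') * (r' * x'))) / r) =
        x * (1 - M) + M * ((1 - E0) * r⁻¹) + -(M * E0 * exp (-l') * (r' * r⁻¹) * x') := by
      rw [div_eq_mul_inv]
      ring
    rw [e2]
    exact p3

/-- **The first node.** -/
theorem zeroP_of {t : TD} (hok : t.ok = true) {e κ : ℝ} (he : 0 < e) (hκ : 0 < κ)
    (ht0 : 0 < t.tR 0 e κ) {v p : ℂ} (hc : cosh (κ * p) ≠ 0) (hv : Tb.iv e κ p = I * v)
    (h : ∀ x : ℂ, ‖x‖ ≤ 1 → ∃ σ : ℕ → ℂ, σ 0 = ((1 / e : ℝ) : ℂ) ∧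
      (bS t).ev σ = ((e * κ / 2 : ℝ) : ℂ) ∧ σ 2 = v ∧ σ 3 = x ∧ Sem (PS0 t) σ fun _ => True) :
    ZeroP t.tb e κ θ0 (dS t 0 e κ) (t.Y 0 e) p (t.L0 e κ p)
      (t.R0 e κ p) (t.M0 e κ p) := by
  obtain ⟨σ, h0, h1, h2, h3, hs⟩ := h 1 (by simp)
  obtain ⟨T1, hZ⟩ := zero_pt hok he hκ ht0 h0 h1 h2 h3 hv hs
  refine ⟨⟨hc, hZ.phd, hZ.dne⟩, hZ.r, ?_, hZ.E, ?_⟩
  · intro hM
    obtain ⟨-, h4⟩ := hZ.close 0 (by simp) (by simp)
    rw [hM, zero_mul, sub_zero, norm_one] at h4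
    exact absurd (h4.trans θ0_lt) (lt_irrefl _)
  · intro x hx
    obtain ⟨σ, h0, h1, h2, h3, hs⟩ := h x hx
    obtain ⟨T1, hZ⟩ := zero_pt hok he hκ ht0 h0 h1 h2 h3 hv hs
    exact ⟨T1, hZ.F, hZ.g, hZ.w0, hZ.SH, hZ.S, hZ.re, hZ.ne, hZ.disp, hZ.cut, hZ.close⟩

/-! ### The test -/

def ptB : List St :=
  [St.pos ((E.c half).sub (((E.r 41).sub (E.r 37)).add ((E.r 53).log.mul (E.r 5))).exp)]

theorem PST_eq (t : TD) (ve : ℤ) : PST t ve = .set 3 (.r 2) :: (headS t (bS t) ++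
    (.set 2 (.c (zi ve)) :: (zroS t ++ (shQ ++ (ieS ++ ptB))))) := by
  unfold PST ptB
  simp only [List.append_assoc, List.cons_append, List.nil_append]

/-- **The test.** -/
theorem test_pt {t : TD} {e κ s : ℝ} (he : 0 < e) {σ : ℕ → ℂ} {Q : (ℕ → ℂ) → Prop} {x p : ℂ} {ve : ℤ}
    (h0 : σ 0 = ((1 / e : ℝ) : ℂ)) (h1 : σ 1 = (s : ℂ)) (hb : t.bv (1 / e) s = e * κ / 2)
    (h2 : σ 2 = x) (hv : Tb.iv e κ p = I * cv ve) (h : Sem (PST t ve) σ Q) :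
    (exp (lF (t.L0 e κ p) (t.R0 e κ p * x) + (e : ℂ) / 2 *
      log (Pool.Agent.helper12.RS.SH e κ (tanh (κ * p)) (t.L0 e κ p) (t.R0 e κ p * x)))).re <
        1 / 2 := by
  have hee := ep_e he
  rw [PST_eq] at h
  obtain ⟨-, h⟩ := sem_set h (x := x) h2
  have h := sem_append _ _ _ h
  obtain ⟨σ1, h, hF1, -, k2, k3⟩ := headS_spec (κ := κ) he
    (by rw [upd_ne (by omega), h0]) (b := bS t) (by
      rw [bS_ev (ep := 1 / e) (s := s) (by rw [upd_ne (by omega), upd_ne (by omega), h0])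
        (by rw [upd_ne (by omega), upd_ne (by omega), h1]), hb]) h
  rw [upd_same] at k3
  obtain ⟨-, h⟩ := sem_set h (x := cv ve) (by
    show (zi ve).val = _
    rw [zi_val])
  have hF2 : HFS t e κ (upd σ1 2 (cv ve)) := hF1.of_eq (fun i _ _ hi _ _ => upd_ne hi _) (fun i j =>
    upd_ne (mreg_ne_lt (by omega)).symm _)
  have h := sem_append _ _ _ h
  obtain ⟨σ3, h, f3, l, χ, a, W, Y, s', sq, hl, hz⟩ := zroS_spec he hF2 (upd_same _ _)
    (by rw [upd_ne (by omega), k3]) hv h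
  have hF3 : HFS t e κ σ3 := hF2.of_eq (fun i hi _ _ _ _ => f3 i (by omega)) (fun i j => f3 _ (by
    have := mreg_ge i j
    omega))
  have h := sem_append _ _ _ h
  obtain ⟨σ4, h, f4, k53, hre, hSH⟩ := shQ_spec he hF3 hz h
  have h := sem_append _ _ _ h
  have e0 : σ4 0 = ((1 / e : ℝ) : ℂ) := by rw [f4 0 (by omega), hF3.ep]
  obtain ⟨-, -, h⟩ := h
  obtain ⟨-, h⟩ := sem_set h (x := (e : ℂ)) (by
    show (σ4 0)⁻¹ = _
    rw [e0]
    exact inv_eq_of_mul_eq_one_right hee)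
  obtain ⟨-, p1, -⟩ := h
  obtain ⟨q, hq⟩ : ∃ q, q = sq - 2 * (a * Y) := ⟨_, rfl⟩
  rw [← hq] at k53 hre hSH
  have g37 : σ4 37 = lc l := by rw [f4 37 (by omega), hz.f37]
  have g41 : σ4 41 = log (1 + exp (-l) * χ) := by rw [f4 41 (by omega), hz.f41]
  have hlog : log (q * q) = 2 * log q := by
    have q0 : q ≠ 0 := ne_of_re hre
    have h1 : exp (2 * log q) = q * q := by
      rw [two_mul, Complex.exp_add, Complex.exp_log q0]
    have h2 : (2 * log q).im = 2 * arg q := by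
      rw [show (2 : ℂ) * log q = ((2 : ℝ) : ℂ) * log q by push_cast; rfl, Complex.im_ofReal_mul,
        Complex.log_im]
    have h3 : |arg q| < Real.pi / 2 := Complex.abs_arg_lt_pi_div_two_iff.2 (Or.inl hre)
    rw [abs_lt] at h3
    rw [← h1, Complex.log_exp (by rw [h2]; linarith) (by rw [h2]; linarith)]
  have h4 : E.ev (upd σ4 5 (e : ℂ)) ((E.c half).sub
      (((E.r 41).sub (E.r 37)).add ((E.r 53).log.mul (E.r 5))).exp) =
      1 / 2 - exp (lF l χ + (e : ℂ) / 2 *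
        log (Pool.Agent.helper12.RS.SH e κ (tanh (κ * p)) l χ)) := by
    simp only [E.ev, upd, Nat.reduceEqDiff, reduceIte, half_val]
    rw [g41, g37, k53, hSH, hlog]
    congr 2
    unfold lF
    ring
  rw [h4, sub_re] at p1
  rw [← hl, ← hz.hχ]
  have h5 : ((1 : ℂ) / 2).re = 1 / 2 := by
    rw [show (1 : ℂ) / 2 = ((1 / 2 : ℝ) : ℂ) by push_cast; rfl, ofReal_re]
  rw [h5] at p1
  linarith

end Pool.Agent.helper4.NS.Z0
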