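import Pool.Agent.helper4.NS.SpecDef
import Pool.Agent.helper63.NF.SpecP0

/-!
# Meaning of the program of the first node, second family (state `T/ε`)
-/

namespace Pool.Agent.helper4.NS.Z0

open Complex
open Pool.Agent.helper31.IA (Z get)
open Pool.Agent.helper12.RS
open Pool.Agent.helper63.NF

/-- the registers after the block of the first node -/
structure ZR (t : TD) (e κ : ℝ) (p x : ℂ) (l χ a W Y s sq : ℂ) (σ : ℕ → ℂ) : Prop where
  f27 : σ 27 = Tb.ph e κ p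
  phd : 1 + Tb.iv e κ p / 2 ≠ 0
  f28 : σ 28 = l
  f32 : σ 32 = t.tb.an0 e κ * Tb.u0 e κ p
  f33 : σ 33 = 1 + t.tb.c0 * Tb.u0 e κ p
  dne : 1 + t.tb.c0 * Tb.u0 e κ p ≠ 0
  hχ : χ = t.R0 e κ p * x
  f37 : σ 37 = lc l
  E : 0 < (1 + exp (-l)).re
  g : 0 < (1 - χ).re
  F : 0 < (1 + exp (-l) * χ).re
  f41 : σ 41 = log (1 + exp (-l) * χ)
  hs : s = (Hh κ : ℂ) ^ 2 * (1 / 4)
  hY : (Hh κ : ℂ) * tanh (κ * p) = 2 * Y
  ha : a = exp (-((LA e κ : ℂ) + lF l χ) / e)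
  hW : W = exp ((lF l χ - lG l χ) / e)
  hsq : sq = (1 - 4 * (a * a * (s - Y * Y))) ^ ((1 / 2 : ℝ) : ℂ)
  hsl : 1 - 4 * (a * a * (s - Y * Y)) ∈ slitPlane
  f42 : σ 42 = a
  f43 : σ 43 = W
  f44 : σ 44 = e * (e * s)
  f46 : σ 46 = e * Y
  f48 : σ 48 = e * (e * (s - Y * Y))
  f49 : σ 49 = a * a
  f51 : σ 51 = sq

theorem ZR.of_eq {t : TD} {e κ : ℝ} {p x l χ a W Y s sq : ℂ} {σ τ : ℕ → ℂ}
    (h : ZR t e κ p x l χ a W Y s sq σ) (h1 : ∀ i, 26 ≤ i → i < 53 → τ i = σ i) :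
    ZR t e κ p x l χ a W Y s sq τ := by
  refine ⟨?_, h.phd, ?_, ?_, ?_, h.dne, h.hχ, ?_, h.E, h.g, h.F, ?_, h.hs, h.hY, h.ha, h.hW, h.hsq,
    h.hsl, ?_, ?_, ?_, ?_, ?_, ?_, ?_⟩
  · rw [h1 27 (by omega) (by omega), h.f27]
  · rw [h1 28 (by omega) (by omega), h.f28]
  · rw [h1 32 (by omega) (by omega), h.f32]
  · rw [h1 33 (by omega) (by omega), h.f33]
  · rw [h1 37 (by omega) (by omega), h.f37]
  · rw [h1 41 (by omega) (by omega), h.f41]
  · rw [h1 42 (by omega) (by omega), h.f42]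
  · rw [h1 43 (by omega) (by omega), h.f43]
  · rw [h1 44 (by omega) (by omega), h.f44]
  · rw [h1 46 (by omega) (by omega), h.f46]
  · rw [h1 48 (by omega) (by omega), h.f48]
  · rw [h1 49 (by omega) (by omega), h.f49]
  · rw [h1 51 (by omega) (by omega), h.f51]

theorem aQ_ev {t : TD} {e κ : ℝ} {σ : ℕ → ℂ} (hM : MI t.L (t.tb.de e) (t.tb.db e κ) σ)
    (hk : σ 7 = (κ : ℂ)) (m : ℕ) : (aQ t m).ev σ =
      P2 (c2 (nth [] t.a m)) (t.tb.de e) (t.tb.db e κ) * exp (-(cv (nth 0 t.j m) * κ)) := by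
  unfold aQ
  have h1 := q2E_ev0 hM (nth [] t.a m)
  by_cases hj : nth 0 t.j m = 0
  · have h2 : (nth 0 t.j m == 0) = true := by simpa using hj
    simp only [h2, cond_true]
    rw [h1, hj, cv_zero, zero_mul, neg_zero, Complex.exp_zero, mul_one]
    rfl
  · have h2 : (nth 0 t.j m == 0) = false := by simpa using hj
    simp only [h2, cond_false]
    rw [mulR_ev, h1]
    show _ * exp (-((zi (nth 0 t.j m)).val * σ 7)) = _
    rw [zi_val, hk]
    rfl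

theorem zroS_eq (t : TD) : zroS t =
    [St.set 26 (E.sc zI (E.r 2)), St.set 27 ((E.r 26).mul ((E.sc half (E.r 26)).add (E.r 22)).inv),
    St.set 28 (hornE (E.r 27) ((q2E t.L 0 t.q0).mul (E.r 4) :: List.map (q2E t.L 0) t.l0)),
    St.set 50 ((E.r 0).mul (E.r 0)),
    St.set 29 ((E.sc (zi 5703716569088) (E.r 50)).add (E.c (zi 1726576852992))),
    St.set 30 ((E.sc four (E.r 4)).add (E.sc four ((E.r 27).mul (E.r 29)))),
    St.set 31 (aQ t 0), St.set 32 ((E.r 31).mul (E.r 30)),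
    St.set 33 ((E.sc (zi (nth 0 t.c 0)) (E.r 30)).add (E.r 22)),
    St.pos (E.r 33), St.set 34 ((E.r 32).mul (E.r 33).inv), St.set 35 (E.r 28).neg.exp,
    St.set 36 ((E.r 35).add (E.r 22)),
    St.pos (E.r 36), St.set 37 (E.r 36).log, St.set 38 ((E.r 34).mul (E.r 3)),
    St.set 40 ((E.r 22).sub (E.r 38)),
    St.pos (E.r 40), St.set 39 (E.r 40).log, St.set 40 (((E.r 35).mul (E.r 38)).add (E.r 22)),
    St.pos (E.r 40),
    St.set 41 (E.r 40).log,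
    St.set 42 ((((E.r 37).sub (E.r 41)).sub ((E.r 4).add (E.r 25))).mul (E.r 0)).exp,
    St.set 43 ((((E.r 41).sub (E.r 39)).add (E.r 28)).mul (E.r 0)).exp,
    St.set 44 (E.sc quart ((E.r 17).mul (E.r 17))),
    St.set 45 ((E.r 50).mul (E.r 44)),
    St.set 46 (E.sc zI ((E.r 2).mul ((E.r 29).mul ((E.sc (zi 1649267441664) (E.r 45)).add (E.r 22))))),
    St.set 47 ((E.r 46).mul (E.r 46)),
    St.set 48 ((E.r 44).sub (E.r 47)), St.set 49 ((E.r 42).mul (E.r 42)),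
    St.set 52 ((E.r 22).sub (E.sc four ((E.r 50).mul ((E.r 49).mul (E.r 48))))), St.pos (E.r 52),
    St.set 51 (E.sc half (E.r 52).log).exp] := rfl

/-- **The block of the first node.** -/
theorem zroS_spec {t : TD} {e κ : ℝ} (he : 0 < e) {σ : ℕ → ℂ} {Q : (ℕ → ℂ) → Prop} {v x p : ℂ}
    (hF : HFS t e κ σ) (h2 : σ 2 = v) (h3 : σ 3 = x) (hv : Tb.iv e κ p = I * v)
    (h : Sem (zroS t) σ Q) : ∃ τ, Q τ ∧ (∀ i, i < 26 ∨ 53 ≤ i → τ i = σ i) ∧
      ∃ l χ a W Y s sq, l = t.L0 e κ p ∧ ZR t e κ p x l χ a W Y s sq τ := by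
  rw [zroS_eq] at h
  have he0 : (e : ℂ) ≠ 0 := by exact_mod_cast he.ne'
  have e0 := hF.ep
  have e4 := hF.b
  have e7 := hF.k
  have e17 := hF.z
  have e22 := hF.one
  have e25 := hF.LMi
  obtain ⟨ep, hep⟩ : ∃ z, z = ((1 / e : ℝ) : ℂ) := ⟨_, rfl⟩
  have hepe : ep * (e : ℂ) = 1 := by
    rw [hep]
    push_cast
    field_simp
  obtain ⟨b, hb⟩ : ∃ z, z = ((e * κ / 2 : ℝ) : ℂ) := ⟨_, rfl⟩
  rw [← hep] at e0
  rw [← hb] at e4
  obtain ⟨-, h⟩ := sem_set h (x := I * v) (by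
    show (⟨0, 0, 1099511627776, 0⟩ : Z).val * σ 2 = _
    rw [zI_val, h2])
  rw [← hv] at h
  obtain ⟨w, hw⟩ : ∃ z, z = Tb.iv e κ p := ⟨_, rfl⟩
  rw [← hw] at h
  obtain ⟨φ, hφ⟩ : ∃ z, z = Tb.ph e κ p := ⟨_, rfl⟩
  obtain ⟨o1, h⟩ := sem_set h (x := φ) (by
    rw [hφ]
    unfold Tb.ph
    rw [← hw]
    simp only [E.ev, upd, Nat.reduceEqDiff, reduceIte, half_val]
    rw [e22, div_eq_mul_inv]
    congr 2
    ring)
  have phd : 1 + w / 2 ≠ 0 := by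
    have o2 := o1.2.2
    simp only [E.ev, upd, Nat.reduceEqDiff, reduceIte, half_val] at o2
    rw [e22] at o2
    intro h0
    apply o2
    linear_combination h0
  obtain ⟨l, hl⟩ : ∃ z, z = t.L0 e κ p := ⟨_, rfl⟩
  obtain ⟨-, h⟩ := sem_set h (x := l) (by
    have hM : MI t.L (t.tb.de e) (t.tb.db e κ) (upd (upd σ 26 w) 27 φ) :=
      MI_upd (MI_upd hF.mi (by omega) _) (by omega) _
    rw [hornE_ev, List.map_cons, horn_cons]
    have g1 := q2E_ev hM 0 t.q0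
    have g2 : ((t.l0.map (q2E t.L 0)).map (E.ev (upd (upd σ 26 w) 27 φ))) =
        (c3 t.l0).map (fun r => P2 r (t.tb.de e) (t.tb.db e κ)) := by
      unfold c3
      rw [List.map_map, List.map_map]
      apply List.map_congr_left
      intro r _
      show (q2E t.L 0 r).ev _ = P2 _ _ _
      rw [q2E_ev hM, cv_zero, zero_add]
    rw [cv_zero, zero_add] at g1
    rw [g2]
    show horn _ (upd (upd σ 26 w) 27 φ 27) * (upd (upd σ 26 w) 27 φ 27) +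
      (q2E t.L 0 t.q0).ev _ * (upd (upd σ 26 w) 27 φ 4) = l
    rw [g1, upd_same, upd_ne (by omega), upd_ne (by omega), e4, hl]
    unfold TD.L0
    rw [← hφ, ← hb]
    show P3 (c3 t.l0) φ _ _ * φ + P2 (c2 t.q0) _ _ * b = φ * P3 (c3 t.l0) φ _ _ + b * P2 (c2 t.q0) _ _
    ring)
  obtain ⟨-, h⟩ := sem_set h (x := ep * ep) (by
    simp only [E.ev, upd, Nat.reduceEqDiff, reduceIte]
    rw [e0])
  obtain ⟨g, hg⟩ : ∃ z, z = (Tb.gR e : ℂ) := ⟨_, rfl⟩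
  obtain ⟨-, h⟩ := sem_set h (x := g) (by
    rw [hg]
    unfold Tb.gR
    simp only [E.ev, upd, Nat.reduceEqDiff, reduceIte, zi_val]
    rw [hep, cv, cv]
    push_cast
    ring)
  obtain ⟨u, hu⟩ : ∃ z, z = Tb.u0 e κ p := ⟨_, rfl⟩
  obtain ⟨-, h⟩ := sem_set h (x := u) (by
    rw [hu]
    unfold Tb.u0
    rw [← hφ, ← hg, ← hb]
    simp only [E.ev, upd, Nat.reduceEqDiff, reduceIte, four_val]
    rw [e4]
    ring)
  obtain ⟨A, hA⟩ : ∃ z, z = t.tb.an0 e κ := ⟨_, rfl⟩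
  obtain ⟨-, h⟩ := sem_set h (x := A) (by
    have hM : MI t.L (t.tb.de e) (t.tb.db e κ)
        (upd (upd (upd (upd (upd (upd σ 26 w) 27 φ) 28 l) 50 (ep * ep)) 29 g) 30 u) :=
      MI_upd (MI_upd (MI_upd (MI_upd (MI_upd (MI_upd hF.mi (by omega) _) (by omega) _) (by omega) _)
        (by omega) _) (by omega) _) (by omega) _
    rw [aQ_ev hM (by
      rw [upd_ne (by omega), upd_ne (by omega), upd_ne (by omega), upd_ne (by omega),
        upd_ne (by omega), upd_ne (by omega), e7]), hA]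
    rfl)
  obtain ⟨-, h⟩ := sem_set h (x := A * u) (by simp [E.ev, upd])
  obtain ⟨d, hd⟩ : ∃ z, z = 1 + t.tb.c0 * u := ⟨_, rfl⟩
  obtain ⟨-, h⟩ := sem_set h (x := d) (by
    simp only [E.ev, upd, Nat.reduceEqDiff, reduceIte, zi_val]
    rw [e22, hd, add_comm]
    rfl)
  obtain ⟨-, p1, h⟩ := h
  have dre : 0 < d.re := p1
  obtain ⟨-, h⟩ := sem_set h (x := A * u / d) (by
    simp only [E.ev, upd, Nat.reduceEqDiff, reduceIte]
    rw [div_eq_mul_inv])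
  obtain ⟨r, hr⟩ : ∃ z, z = t.R0 e κ p := ⟨_, rfl⟩
  have hr' : A * u / d = r := by
    rw [hr, hd, hA, hu]
    rfl
  rw [hr'] at h
  obtain ⟨-, h⟩ := sem_set h (x := exp (-l)) (by simp [E.ev, upd])
  obtain ⟨-, h⟩ := sem_set h (x := 1 + exp (-l)) (by
    simp only [E.ev, upd, Nat.reduceEqDiff, reduceIte]
    rw [e22, add_comm])
  obtain ⟨-, p2, h⟩ := h
  have Ere : 0 < (1 + exp (-l)).re := p2
  obtain ⟨-, h⟩ := sem_set h (x := lc l) (by
    simp only [E.ev, upd, Nat.reduceEqDiff, reduceIte]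
    rfl)
  obtain ⟨χ, hχ⟩ : ∃ z, z = r * x := ⟨_, rfl⟩
  obtain ⟨-, h⟩ := sem_set h (x := χ) (by
    simp only [E.ev, upd, Nat.reduceEqDiff, reduceIte]
    rw [h3, hχ])
  obtain ⟨-, h⟩ := sem_set h (x := 1 - χ) (by
    simp only [E.ev, upd, Nat.reduceEqDiff, reduceIte]
    rw [e22])
  obtain ⟨-, p3, h⟩ := h
  have gre : 0 < (1 - χ).re := p3
  obtain ⟨-, h⟩ := sem_set h (x := log (1 - χ)) (by simp [E.ev, upd])
  obtain ⟨-, h⟩ := sem_set h (x := 1 + exp (-l) * χ) (by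
    simp only [E.ev, upd, Nat.reduceEqDiff, reduceIte]
    rw [e22, add_comm])
  obtain ⟨-, p4, h⟩ := h
  have Fre : 0 < (1 + exp (-l) * χ).re := p4
  obtain ⟨-, h⟩ := sem_set h (x := log (1 + exp (-l) * χ)) (by simp [E.ev, upd])
  obtain ⟨a, ha⟩ : ∃ z, z = exp (-((LA e κ : ℂ) + lF l χ) / e) := ⟨_, rfl⟩
  obtain ⟨-, h⟩ := sem_set h (x := a) (by
    simp only [E.ev, upd, Nat.reduceEqDiff, reduceIte]
    rw [e0, e4, e25, ha, hep, hb, LA_eq]
    unfold lF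
    congr 1
    push_cast
    field_simp
    ring)
  obtain ⟨W, hW⟩ : ∃ z, z = exp ((lF l χ - lG l χ) / e) := ⟨_, rfl⟩
  obtain ⟨-, h⟩ := sem_set h (x := W) (by
    simp only [E.ev, upd, Nat.reduceEqDiff, reduceIte]
    rw [e0, hW, hep]
    unfold lF lG
    congr 1
    push_cast
    field_simp
    ring)
  obtain ⟨s, hs⟩ : ∃ z, z = (Hh κ : ℂ) ^ 2 * (1 / 4) := ⟨_, rfl⟩
  obtain ⟨-, h⟩ := sem_set h (x := (e : ℂ) * (e * s)) (by
    simp only [E.ev, upd, Nat.reduceEqDiff, reduceIte, quart_val]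
    rw [e17, hs]
    ring)
  obtain ⟨-, h⟩ := sem_set h (x := s) (by
    simp only [E.ev, upd, Nat.reduceEqDiff, reduceIte]
    linear_combination (ep * e * s + s) * hepe)
  obtain ⟨Y, hYd⟩ : ∃ z, z = (Real.sinh (κ / 2) : ℂ) * tanh (κ * p) := ⟨_, rfl⟩
  have hsh : (Hh κ : ℂ) = 2 * (Real.sinh (κ / 2) : ℂ) := by
    unfold Hh
    push_cast
    rfl
  have hY2 : (Hh κ : ℂ) * tanh (κ * p) = 2 * Y := by
    rw [hsh, hYd]
    ring
  have hYv : Y = w * (ep * g * (1 + 3 / 2 * s)) := by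
    have g4 : s = (Real.sinh (κ / 2) : ℂ) ^ 2 := by
      rw [hs, hsh]
      ring
    have g5 : ep * g * (1 + 3 / 2 * s) ≠ 0 := by
      have g6 : (0 : ℝ) < 1 / e * Tb.gR e * (1 + 3 / 2 * Real.sinh (κ / 2) ^ 2) := by
        have := Tb.gR_pos e
        positivity
      rw [g4, hep, hg]
      have g7 := Complex.ofReal_ne_zero.2 g6.ne'
      push_cast at g7 ⊢
      exact g7
    rw [hw]
    unfold Tb.iv
    rw [← hg, ← hep, ← g4, ← hYd]
    exact (div_mul_cancel₀ _ g5).symm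
  obtain ⟨-, h⟩ := sem_set h (x := e * Y) (by
    simp only [E.ev, upd, Nat.reduceEqDiff, reduceIte, zI_val, zi_val]
    rw [h2, e22, hYv, show w = I * v by rw [hw, hv], cv]
    push_cast
    linear_combination (-(I * v * g * (1 + 3 / 2 * s))) * hepe)
  obtain ⟨-, h⟩ := sem_set h (x := e * Y * (e * Y)) (by simp [E.ev, upd])
  obtain ⟨-, h⟩ := sem_set h (x := e * (e * (s - Y * Y))) (by
    simp only [E.ev, upd, Nat.reduceEqDiff, reduceIte]
    ring)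
  obtain ⟨-, h⟩ := sem_set h (x := a * a) (by simp [E.ev, upd])
  obtain ⟨D, hD⟩ : ∃ z, z = 1 - 4 * (a * a * (s - Y * Y)) := ⟨_, rfl⟩
  obtain ⟨-, h⟩ := sem_set h (x := D) (by
    simp only [E.ev, upd, Nat.reduceEqDiff, reduceIte, four_val]
    rw [e22, hD]
    linear_combination (-4 * (a * a * (s - Y * Y)) * (ep * e + 1)) * hepe)
  obtain ⟨-, p5, h⟩ := h
  have Dre : 0 < D.re := p5
  have hsl : D ∈ slitPlane := Or.inl Dre
  obtain ⟨sq, hsq⟩ : ∃ z, z = D ^ ((1 / 2 : ℝ) : ℂ) := ⟨_, rfl⟩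
  obtain ⟨-, h⟩ := sem_set h (x := sq) (by
    simp only [E.ev, upd, Nat.reduceEqDiff, reduceIte, half_val]
    rw [half_pow (slitPlane_ne_zero hsl), hsq])
  refine ⟨_, h, ?_, l, χ, a, W, Y, s, sq, hl, ?_⟩
  · intro i hi
    repeat rw [upd_ne (by omega)]
  · refine ⟨?_, ?_, ?_, ?_, ?_, ?_, ?_, ?_, Ere, gre, Fre, ?_, hs, hY2, ha, hW, ?_, ?_, ?_, ?_,
      ?_, ?_, ?_, ?_, ?_⟩
    · simp [upd, hφ]
    · rw [← hw]; exact phd
    · simp [upd]
    · simp [upd, hA, hu]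
    · simp [upd, hd, hu]
    · rw [← hu, ← hd]; exact ne_of_re dre
    · rw [hχ, hr]
    · simp [upd]
    · simp [upd]
    · rw [hsq, hD]
    · rw [← hD]; exact hsl
    · simp [upd]
    · simp [upd]
    · simp [upd]
    · simp [upd]
    · simp [upd]
    · simp [upd]
    · simp [upd]

end Pool.Agent.helper4.NS.Z0
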